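import Mathlib

/-!
# `D / φ(D)` and sums over small squarefree divisors
-/

set_option autoImplicit false

namespace Pool.Agent.Helper36K9.QA

open Finset

/-- sum over the divisors of a squarefree number -/
theorem sum_sqf (g : ℕ → ℝ) {n : ℕ} (hn : Squarefree n) :
    ∑ u ∈ n.divisors, ∏ p ∈ u.primeFactors, g p = ∏ p ∈ n.primeFactors, (1 + g p) := by
  have h := (ArithmeticFunction.IsMultiplicative.prodPrimeFactors g).prodPrimeFactors_one_add_of_squarefree hn
  have h1 : ∑ d ∈ n.divisors, (ArithmeticFunction.prodPrimeFactors g) d =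
      ∑ u ∈ n.divisors, ∏ p ∈ u.primeFactors, g p := by
    refine sum_congr rfl fun d hd => ?_
    exact ArithmeticFunction.prodPrimeFactors_apply (Nat.pos_of_mem_divisors hd).ne'
  rw [← h1, ← h]
  refine prod_congr rfl fun p hp => ?_
  have hp' := Nat.prime_of_mem_primeFactors hp
  rw [ArithmeticFunction.prodPrimeFactors_apply hp'.ne_zero, hp'.primeFactors, prod_singleton]

theorem sqf_of_mem {n u : ℕ} (hn : Squarefree n) (hu : u ∈ n.divisors) : Squarefree u :=
  hn.squarefree_of_dvd (Nat.dvd_of_mem_divisors hu)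

theorem prod_pf {u : ℕ} (hu : Squarefree u) : (∏ p ∈ u.primeFactors, (p : ℝ)) = u := by
  have h := congrArg (Nat.cast : ℕ → ℝ) (Nat.prod_primeFactors_of_squarefree hu)
  rw [Nat.cast_prod] at h
  exact h

theorem prod_tot {u : ℕ} (hu : Squarefree u) :
    (∏ p ∈ u.primeFactors, ((p : ℝ) - 1)) = Nat.totient u := by
  have h0 : u ≠ 0 := hu.ne_zero
  have h := Nat.totient_eq_mul_prod_factors u
  have h2 : (Nat.totient u : ℝ) = u * ∏ p ∈ u.primeFactors, (1 - (p : ℝ)⁻¹) := by
    have h3 := congrArg (Rat.cast : ℚ → ℝ) h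
    push_cast at h3
    exact h3
  rw [h2, ← prod_pf hu, ← prod_mul_distrib]
  refine prod_congr rfl fun p hp => ?_
  have hp' : (p : ℝ) ≠ 0 := by exact_mod_cast (Nat.prime_of_mem_primeFactors hp).ne_zero
  field_simp

theorem tele (z : ℕ) : ∑ n ∈ Icc 2 z, 1 / ((n : ℝ) * (n - 1)) ≤ 1 := by
  have h : ∀ m : ℕ, ∑ n ∈ Icc 2 (m + 1), 1 / ((n : ℝ) * (n - 1)) = 1 - 1 / ((m : ℝ) + 1) := by
    intro m
    induction m with
    | zero => simp
    | succ m ih =>
      rw [sum_Icc_succ_top (by omega), ih]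
      push_cast
      have h1 : (m : ℝ) + 1 ≠ 0 := by positivity
      have h2 : (m : ℝ) + 1 + 1 ≠ 0 := by positivity
      field_simp
      ring
  rcases z with _ | m
  · simp
  · rw [h m]
    have : 0 ≤ 1 / ((m : ℝ) + 1) := by positivity
    linarith

/-- a sum over the divisors of a primorial -/
theorem sum_pri {K : ℝ} (hK : 0 < K) (z : ℕ) :
    ∑ u ∈ Nat.divisors (primorial z), K ^ u.primeFactors.card / ((u : ℝ) * Nat.totient u) ≤
      Real.exp K := by
  have hs := squarefree_primorial z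
  have h1 : ∑ u ∈ Nat.divisors (primorial z), K ^ u.primeFactors.card / ((u : ℝ) * Nat.totient u) =
      ∑ u ∈ Nat.divisors (primorial z), ∏ p ∈ u.primeFactors, (K * (1 / ((p : ℝ) * (p - 1)))) := by
    refine sum_congr rfl fun u hu => ?_
    have hu' := sqf_of_mem hs hu
    rw [prod_mul_distrib, prod_const, prod_div_distrib, prod_const_one, prod_mul_distrib,
      prod_pf hu', prod_tot hu']
    ring
  rw [h1, sum_sqf _ hs]
  have h2 : ∀ p ∈ (primorial z).primeFactors, 2 ≤ p ∧ p ≤ z := by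
    intro p hp
    have hp' := Nat.prime_of_mem_primeFactors hp
    exact ⟨hp'.two_le, hp'.dvd_primorial_iff.mp (Nat.dvd_of_mem_primeFactors hp)⟩
  have h3 : ∀ p ∈ (primorial z).primeFactors, 0 ≤ 1 / ((p : ℝ) * (p - 1)) := by
    intro p hp
    have : (2 : ℝ) ≤ p := by exact_mod_cast (h2 p hp).1
    have h4 : 0 < (p : ℝ) - 1 := by linarith
    positivity
  calc ∏ p ∈ (primorial z).primeFactors, (1 + K * (1 / ((p : ℝ) * (p - 1))))
      ≤ ∏ p ∈ (primorial z).primeFactors, Real.exp (K * (1 / ((p : ℝ) * (p - 1)))) := by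
        refine prod_le_prod (fun p hp => ?_) (fun p hp => ?_)
        · have := h3 p hp
          positivity
        · rw [add_comm]
          exact Real.add_one_le_exp _
    _ = Real.exp (K * ∑ p ∈ (primorial z).primeFactors, 1 / ((p : ℝ) * (p - 1))) := by
        rw [← Real.exp_sum, mul_sum]
    _ ≤ Real.exp (K * 1) := by
        apply Real.exp_le_exp.mpr
        apply mul_le_mul_of_nonneg_left _ hK.le
        refine le_trans (sum_le_sum_of_subset_of_nonneg (fun p hp => ?_) (fun p hp _ => ?_)) (tele z)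
        · rw [mem_Icc]
          exact h2 p hp
        · rw [mem_Icc] at hp
          have : (2 : ℝ) ≤ p := by exact_mod_cast hp.1
          have h4 : 0 < (p : ℝ) - 1 := by linarith
          positivity
    _ = Real.exp K := by rw [mul_one]

/-- the divisors are small -/
theorem div_small (X : ℕ) (hX : 2 ≤ X) (u : ℕ) (hu : u ∈ Nat.divisors (primorial ⌊Real.log X / 8⌋₊)) :
    u * u ≤ X := by
  have hX0 : (0 : ℝ) < X := by positivity
  have hlog : 0 ≤ Real.log X := Real.log_nonneg (by exact_mod_cast (by omega : 1 ≤ X))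
  have h1 : u ≤ 4 ^ ⌊Real.log X / 8⌋₊ :=
    (Nat.le_of_dvd (primorial_pos _) (Nat.dvd_of_mem_divisors hu)).trans (primorial_le_four_pow _)
  have h2 : (u : ℝ) * u ≤ X := by
    have h3 : (u : ℝ) ≤ (4 : ℝ) ^ ⌊Real.log X / 8⌋₊ := by exact_mod_cast h1
    have h4 : (4 : ℝ) ^ ⌊Real.log X / 8⌋₊ ≤ Real.exp (Real.log X / 2) := by
      have h5 : (4 : ℝ) ≤ Real.exp 2 := by
        have := Real.add_one_le_exp (1 : ℝ)
        have h6 : Real.exp 2 = Real.exp 1 * Real.exp 1 := by
          rw [← Real.exp_add]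
          norm_num
        rw [h6]
        nlinarith
      calc (4 : ℝ) ^ ⌊Real.log X / 8⌋₊ ≤ (Real.exp 2) ^ ⌊Real.log X / 8⌋₊ :=
            pow_le_pow_left₀ (by norm_num) h5 _
        _ = Real.exp (⌊Real.log X / 8⌋₊ * 2) := by rw [← Real.exp_nat_mul]
        _ ≤ Real.exp (Real.log X / 2) := by
            apply Real.exp_le_exp.mpr
            have := Nat.floor_le (a := Real.log X / 8) (by positivity)
            linarith
    calc (u : ℝ) * u ≤ Real.exp (Real.log X / 2) * Real.exp (Real.log X / 2) :=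
          mul_le_mul (h3.trans h4) (h3.trans h4) (by positivity) (by positivity)
      _ = X := by
          rw [← Real.exp_add, add_halves, Real.exp_log hX0]
  exact_mod_cast h2

/-- `D / φ(D)` as a product -/
theorem rt_prod {D : ℕ} (hD : 1 ≤ D) :
    (D : ℝ) / Nat.totient D = ∏ p ∈ D.primeFactors, (1 + 1 / ((p : ℝ) - 1)) := by
  have h := Nat.totient_eq_mul_prod_factors D
  have h2 : (Nat.totient D : ℝ) = D * ∏ p ∈ D.primeFactors, (1 - (p : ℝ)⁻¹) := by
    have h3 := congrArg (Rat.cast : ℚ → ℝ) h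
    push_cast at h3
    exact h3
  have hD0 : (D : ℝ) ≠ 0 := by
    have : D ≠ 0 := by omega
    exact_mod_cast this
  rw [h2, div_mul_eq_div_div, div_self hD0, one_div, ← prod_inv_distrib]
  refine prod_congr rfl fun p hp => ?_
  have hp2 : (2 : ℝ) ≤ p := by exact_mod_cast (Nat.prime_of_mem_primeFactors hp).two_le
  have h4 : (p : ℝ) ≠ 0 := by linarith
  have h5 : (p : ℝ) - 1 ≠ 0 := by
    intro h6
    linarith
  field_simp
  ring

/-- the number of prime factors -/
theorem card_pf {D : ℕ} (hD : 1 ≤ D) : (D.primeFactors.card : ℝ) * Real.log 2 ≤ Real.log D := by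
  have h1 : 2 ^ D.primeFactors.card ≤ D := by
    calc 2 ^ D.primeFactors.card = ∏ _p ∈ D.primeFactors, 2 := by rw [prod_const]
      _ ≤ ∏ p ∈ D.primeFactors, p :=
          prod_le_prod' fun p hp => (Nat.prime_of_mem_primeFactors hp).two_le
      _ ≤ D := Nat.le_of_dvd (by omega) (Nat.prod_primeFactors_dvd D)
  have h2 : ((2 : ℝ)) ^ D.primeFactors.card ≤ D := by exact_mod_cast h1
  have h3 := Real.log_le_log (by positivity) h2
  rwa [Real.log_pow] at h3

/-- the large prime factors contribute a bounded factor -/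
theorem large_le (E : ℕ) (X : ℕ) (hX : 2 ≤ X) (D : ℕ) (hD : 1 ≤ D) (hDX : D ≤ X ^ E) :
    ∏ p ∈ D.primeFactors.filter (fun p => ¬ p ≤ ⌊Real.log X / 8⌋₊), (1 + 1 / ((p : ℝ) - 1)) ≤
      Real.exp (32 * E) := by
  have hlog : 0 < Real.log X := Real.log_pos (by exact_mod_cast (by omega : 1 < X))
  have hl2 : 0.6931471803 < Real.log 2 := Real.log_two_gt_d9
  have hp : ∀ p ∈ D.primeFactors.filter (fun p => ¬ p ≤ ⌊Real.log X / 8⌋₊),
      (2 : ℝ) ≤ p ∧ 1 / ((p : ℝ) - 1) ≤ 16 / Real.log X := by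
    intro p hp
    rw [mem_filter] at hp
    have h2 : (2 : ℝ) ≤ p := by exact_mod_cast (Nat.prime_of_mem_primeFactors hp.1).two_le
    refine ⟨h2, ?_⟩
    have h3 : ⌊Real.log X / 8⌋₊ < p := not_le.mp hp.2
    have h4 : Real.log X / 8 < p := (Nat.floor_lt (by positivity)).mp h3
    have h6 : (0 : ℝ) < p - 1 := by linarith
    rw [div_le_div_iff₀ h6 hlog]
    linarith
  calc ∏ p ∈ D.primeFactors.filter (fun p => ¬ p ≤ ⌊Real.log X / 8⌋₊), (1 + 1 / ((p : ℝ) - 1))
      ≤ ∏ _p ∈ D.primeFactors.filter (fun p => ¬ p ≤ ⌊Real.log X / 8⌋₊),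
          Real.exp (16 / Real.log X) := by
        refine prod_le_prod (fun p h => ?_) (fun p h => ?_)
        · have h1 := (hp p h).1
          have h2 : (0 : ℝ) < p - 1 := by linarith
          positivity
        · have h1 := (hp p h).2
          have h3 := Real.add_one_le_exp (16 / Real.log X)
          linarith
    _ = Real.exp (((D.primeFactors.filter (fun p => ¬ p ≤ ⌊Real.log X / 8⌋₊)).card : ℝ) *
          (16 / Real.log X)) := by
        rw [prod_const, ← Real.exp_nat_mul]
    _ ≤ Real.exp (32 * E) := by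
        apply Real.exp_le_exp.mpr
        have h1 : ((D.primeFactors.filter (fun p => ¬ p ≤ ⌊Real.log X / 8⌋₊)).card : ℝ) ≤
            D.primeFactors.card := by exact_mod_cast card_filter_le _ _
        have h2 := card_pf hD
        have h3 : Real.log D ≤ E * Real.log X := by
          have h4 : (D : ℝ) ≤ (X : ℝ) ^ E := by exact_mod_cast hDX
          have h5 := Real.log_le_log (by positivity) h4
          rwa [Real.log_pow] at h5
        have h6 : (D.primeFactors.card : ℝ) ≤ 2 * (E * Real.log X) := by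
          have : (0 : ℝ) ≤ D.primeFactors.card := by positivity
          nlinarith
        calc ((D.primeFactors.filter (fun p => ¬ p ≤ ⌊Real.log X / 8⌋₊)).card : ℝ) *
              (16 / Real.log X) ≤ (2 * (E * Real.log X)) * (16 / Real.log X) :=
              mul_le_mul_of_nonneg_right (h1.trans h6) (by positivity)
          _ = 32 * E := by
              field_simp
              ring

theorem pow_bd (x : ℝ) (h0 : 0 ≤ x) (h1 : x ≤ 1) (k : ℕ) : (1 + x) ^ k ≤ 1 + (2 ^ k - 1) * x := by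
  induction k with
  | zero => simp
  | succ k ih =>
    have h2 : (1 : ℝ) ≤ 2 ^ k := one_le_pow₀ (by norm_num)
    calc (1 + x) ^ (k + 1) = (1 + x) ^ k * (1 + x) := pow_succ _ _
      _ ≤ (1 + (2 ^ k - 1) * x) * (1 + x) := mul_le_mul_of_nonneg_right ih (by linarith)
      _ = 1 + x + (2 ^ k - 1) * x + (2 ^ k - 1) * (x * x) := by ring
      _ ≤ 1 + x + (2 ^ k - 1) * x + (2 ^ k - 1) * x := by
          have h3 : x * x ≤ x := by nlinarith
          nlinarith
      _ = 1 + (2 ^ (k + 1) - 1) * x := by ring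

/-- `D / φ(D)` is essentially a sum over small divisors -/
theorem rt_le (k E : ℕ) (X : ℕ) (hX : 2 ≤ X) (D : ℕ) (hD : 1 ≤ D) (hDX : D ≤ X ^ E) :
    ((D : ℝ) / Nat.totient D) ^ k ≤ (Real.exp (32 * E)) ^ k *
      ∑ u ∈ (Nat.divisors (primorial ⌊Real.log X / 8⌋₊)).filter (fun u => u ∣ D),
        (2 ^ (k + 1) : ℝ) ^ u.primeFactors.card / (u : ℝ) := by
  set z : ℕ := ⌊Real.log X / 8⌋₊ with hz
  have hsplit : (D : ℝ) / Nat.totient D =
      (∏ p ∈ D.primeFactors.filter (fun p => p ≤ z), (1 + 1 / ((p : ℝ) - 1))) *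
      ∏ p ∈ D.primeFactors.filter (fun p => ¬ p ≤ z), (1 + 1 / ((p : ℝ) - 1)) := by
    rw [rt_prod hD, prod_filter_mul_prod_filter_not]
  have hnn : ∀ p ∈ D.primeFactors, (0 : ℝ) ≤ 1 + 1 / ((p : ℝ) - 1) := by
    intro p hp
    have h2 : (2 : ℝ) ≤ p := by exact_mod_cast (Nat.prime_of_mem_primeFactors hp).two_le
    have h3 : (0 : ℝ) < p - 1 := by linarith
    positivity
  have hA0 : 0 ≤ ∏ p ∈ D.primeFactors.filter (fun p => p ≤ z), (1 + 1 / ((p : ℝ) - 1)) :=
    prod_nonneg fun p hp => hnn p (mem_filter.mp hp).1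
  have hB0 : 0 ≤ ∏ p ∈ D.primeFactors.filter (fun p => ¬ p ≤ z), (1 + 1 / ((p : ℝ) - 1)) :=
    prod_nonneg fun p hp => hnn p (mem_filter.mp hp).1
  have hB := large_le E X hX D hD hDX
  rw [← hz] at hB
  set n : ℕ := Nat.gcd (primorial z) D with hn
  have hn0 : n ≠ 0 := Nat.gcd_ne_zero_left (primorial_pos z).ne'
  have hnsq : Squarefree n := (squarefree_primorial z).squarefree_of_dvd (Nat.gcd_dvd_left _ _)
  have hpf : D.primeFactors.filter (fun p => p ≤ z) = n.primeFactors := by
    ext p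
    rw [mem_filter, Nat.mem_primeFactors, Nat.mem_primeFactors]
    constructor
    · rintro ⟨⟨h1, h2, h3⟩, h4⟩
      exact ⟨h1, Nat.dvd_gcd (h1.dvd_primorial_iff.mpr h4) h2, hn0⟩
    · rintro ⟨h1, h2, h3⟩
      exact ⟨⟨h1, h2.trans (Nat.gcd_dvd_right _ _), by omega⟩,
        h1.dvd_primorial_iff.mp (h2.trans (Nat.gcd_dvd_left _ _))⟩
  have hA : (∏ p ∈ D.primeFactors.filter (fun p => p ≤ z), (1 + 1 / ((p : ℝ) - 1))) ^ k ≤
      ∑ u ∈ (Nat.divisors (primorial z)).filter (fun u => u ∣ D),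
        (2 ^ (k + 1) : ℝ) ^ u.primeFactors.card / (u : ℝ) := by
    rw [hpf, ← prod_pow]
    calc ∏ p ∈ n.primeFactors, (1 + 1 / ((p : ℝ) - 1)) ^ k
        ≤ ∏ p ∈ n.primeFactors, (1 + (2 ^ (k + 1) : ℝ) / p) := by
          refine prod_le_prod (fun p hp => ?_) (fun p hp => ?_)
          · have h2 : (2 : ℝ) ≤ p := by exact_mod_cast (Nat.prime_of_mem_primeFactors hp).two_le
            have h3 : (0 : ℝ) < p - 1 := by linarith
            positivity
          · have h2 : (2 : ℝ) ≤ p := by exact_mod_cast (Nat.prime_of_mem_primeFactors hp).two_le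
            have h3 : (0 : ℝ) < p - 1 := by linarith
            have h4 : 1 / ((p : ℝ) - 1) ≤ 1 := by
              rw [div_le_one h3]
              linarith
            have h5 := pow_bd (1 / ((p : ℝ) - 1)) (by positivity) h4 k
            have h6 : 1 / ((p : ℝ) - 1) ≤ 2 / p := by
              rw [div_le_div_iff₀ h3 (by linarith)]
              linarith
            have h7 : (0 : ℝ) < 2 ^ k := by positivity
            have h8 : (0 : ℝ) ≤ 1 / ((p : ℝ) - 1) := by positivity
            calc (1 + 1 / ((p : ℝ) - 1)) ^ k ≤ 1 + (2 ^ k - 1) * (1 / ((p : ℝ) - 1)) := h5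
              _ ≤ 1 + 2 ^ k * (1 / ((p : ℝ) - 1)) := by nlinarith
              _ ≤ 1 + 2 ^ k * (2 / p) := by
                  have := mul_le_mul_of_nonneg_left h6 h7.le
                  linarith
              _ = 1 + (2 ^ (k + 1) : ℝ) / p := by ring
      _ = ∑ u ∈ n.divisors, ∏ p ∈ u.primeFactors, ((2 ^ (k + 1) : ℝ) / p) := (sum_sqf _ hnsq).symm
      _ = ∑ u ∈ n.divisors, (2 ^ (k + 1) : ℝ) ^ u.primeFactors.card / (u : ℝ) := by
          refine sum_congr rfl fun u hu => ?_
          rw [prod_div_distrib, prod_const, prod_pf (sqf_of_mem hnsq hu)]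
      _ ≤ _ := by
          refine sum_le_sum_of_subset_of_nonneg (fun u hu => ?_) (fun u hu _ => by positivity)
          rw [Nat.mem_divisors] at hu
          rw [mem_filter, Nat.mem_divisors]
          exact ⟨⟨hu.1.trans (Nat.gcd_dvd_left _ _), (primorial_pos z).ne'⟩,
            hu.1.trans (Nat.gcd_dvd_right _ _)⟩
  rw [hsplit, mul_pow]
  calc (∏ p ∈ D.primeFactors.filter (fun p => p ≤ z), (1 + 1 / ((p : ℝ) - 1))) ^ k *
        (∏ p ∈ D.primeFactors.filter (fun p => ¬ p ≤ z), (1 + 1 / ((p : ℝ) - 1))) ^ k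
      ≤ (∑ u ∈ (Nat.divisors (primorial z)).filter (fun u => u ∣ D),
        (2 ^ (k + 1) : ℝ) ^ u.primeFactors.card / (u : ℝ)) * (Real.exp (32 * E)) ^ k :=
        mul_le_mul hA (pow_le_pow_left₀ hB0 hB k) (by positivity)
          (sum_nonneg fun u _ => by positivity)
    _ = _ := mul_comm _ _

end Pool.Agent.Helper36K9.QA
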