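import Pool.Agent.Helper36K9.QA.RtL
import Pool.Agent.Erdos456.Mertens

/-!
# Mean values of `D / φ(D)` over intervals, and `D / φ(D) ≤ C log log D`
-/

set_option autoImplicit false

namespace Pool.Agent.Helper36K9.QA

open Finset

/-- the number of multiples in an interval -/
theorem cnt_le (H : ℕ) (s : ℤ) (u : ℕ) (hu : 1 ≤ u) :
    (((Icc (-(H : ℤ)) H).filter (fun a => (u : ℤ) ∣ a + s)).card : ℝ) ≤ (2 * H + 1) / u + 1 := by
  have hu0 : (0 : ℤ) < u := by omega
  have h1 : ((Icc (-(H : ℤ)) H).filter (fun a => (u : ℤ) ∣ a + s)).card ≤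
      ((Ioc (s - H - 1) (s + H)).filter (fun x => (u : ℤ) ∣ x)).card := by
    apply card_le_card_of_injOn (fun a => a + s)
    · intro a ha
      rw [mem_coe, mem_filter, mem_Icc] at ha
      rw [mem_coe, mem_filter, mem_Ioc]
      have h1 : s - H - 1 < a + s := by omega
      have h2 : a + s ≤ s + H := by omega
      exact ⟨⟨h1, h2⟩, ha.2⟩
    · intro a _ b _ hab
      have : a + s = b + s := hab
      omega
  have h2 := Int.Ioc_filter_dvd_card (s - H - 1) (s + H) hu0
  have hu1 : (0 : ℝ) < u := by exact_mod_cast hu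
  have h3 : (((Ioc (s - H - 1) (s + H)).filter (fun x => (u : ℤ) ∣ x)).card : ℝ) ≤
      (2 * H + 1) / u + 1 := by
    have h4 : (((Ioc (s - H - 1) (s + H)).filter (fun x => (u : ℤ) ∣ x)).card : ℤ) =
        max (⌊((s + H : ℤ) : ℚ) / ((u : ℤ) : ℚ)⌋ - ⌊((s - H - 1 : ℤ) : ℚ) / ((u : ℤ) : ℚ)⌋) 0 := h2
    have hu2 : (0 : ℚ) < ((u : ℤ) : ℚ) := by exact_mod_cast hu
    have h5 : ((⌊((s + H : ℤ) : ℚ) / ((u : ℤ) : ℚ)⌋ -
        ⌊((s - H - 1 : ℤ) : ℚ) / ((u : ℤ) : ℚ)⌋ : ℤ) : ℚ) ≤ (2 * H + 1) / u + 1 := by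
      have h6 := Int.floor_le (((s + H : ℤ) : ℚ) / ((u : ℤ) : ℚ))
      have h7 := Int.lt_floor_add_one (((s - H - 1 : ℤ) : ℚ) / ((u : ℤ) : ℚ))
      have h8 : ((s + H : ℤ) : ℚ) / ((u : ℤ) : ℚ) - ((s - H - 1 : ℤ) : ℚ) / ((u : ℤ) : ℚ) =
          (2 * H + 1) / u := by
        rw [← sub_div]
        push_cast
        ring
      push_cast at h6 h7 h8 ⊢
      linarith
    have h9 : ((((Ioc (s - H - 1) (s + H)).filter (fun x => (u : ℤ) ∣ x)).card : ℤ) : ℚ) ≤
        (2 * H + 1) / u + 1 := by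
      rw [h4]
      rcases le_total (⌊((s + H : ℤ) : ℚ) / ((u : ℤ) : ℚ)⌋ -
        ⌊((s - H - 1 : ℤ) : ℚ) / ((u : ℤ) : ℚ)⌋) 0 with h10 | h10
      · rw [max_eq_right h10]
        have : (0 : ℚ) ≤ (2 * H + 1) / u + 1 := by positivity
        exact_mod_cast this
      · rw [max_eq_left h10]
        exact h5
    have h10 := (Rat.cast_le (K := ℝ)).mpr h9
    push_cast at h10
    exact h10
  exact (by exact_mod_cast h1 : (((Icc (-(H : ℤ)) H).filter (fun a => (u : ℤ) ∣ a + s)).card : ℝ) ≤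
    ((Ioc (s - H - 1) (s + H)).filter (fun x => (u : ℤ) ∣ x)).card).trans h3

/-- the mean value over an interval -/
theorem rti_le (k : ℕ) : ∃ C : ℝ, 0 < C ∧ ∀ H : ℕ, 2 ≤ H → ∀ s : ℤ, |s| ≤ 2 * (H : ℤ) ^ 2 →
    ∑ a ∈ (Icc (-(H : ℤ)) H).filter (fun a => a + s ≠ 0),
      (((a + s).natAbs : ℝ) / Nat.totient (a + s).natAbs) ^ k ≤ C * (2 * H + 1) := by
  set K : ℝ := 2 ^ (k + 1) with hK
  have hK0 : 0 < K := by positivity
  set C1 : ℝ := (Real.exp (32 * (4 : ℕ))) ^ k with hC1
  have hC10 : 0 < C1 := by positivity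
  refine ⟨C1 * (2 * Real.exp K), by positivity, fun H hH s hs => ?_⟩
  set P : ℕ := primorial ⌊Real.log H / 8⌋₊ with hP
  have hD : ∀ a ∈ (Icc (-(H : ℤ)) H).filter (fun a => a + s ≠ 0),
      1 ≤ (a + s).natAbs ∧ (a + s).natAbs ≤ H ^ 4 := by
    intro a ha
    rw [mem_filter, mem_Icc] at ha
    refine ⟨by omega, ?_⟩
    have h1 : |a + s| ≤ (H : ℤ) + 2 * (H : ℤ) ^ 2 := by
      have h2 : |a| ≤ (H : ℤ) := abs_le.mpr ⟨ha.1.1, ha.1.2⟩
      exact (abs_add_le a s).trans (by linarith)
    have h3 : (H : ℤ) + 2 * (H : ℤ) ^ 2 ≤ (H : ℤ) ^ 4 := by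
      have h4 : (2 : ℤ) ≤ H := by exact_mod_cast hH
      have h5 : (4 : ℤ) ≤ (H : ℤ) ^ 2 := by nlinarith
      have h6 : (H : ℤ) ≤ (H : ℤ) ^ 2 := by nlinarith
      nlinarith
    have h7 : ((a + s).natAbs : ℤ) ≤ ((H ^ 4 : ℕ) : ℤ) := by
      rw [Int.natCast_natAbs]
      push_cast
      exact h1.trans h3
    exact_mod_cast h7
  calc ∑ a ∈ (Icc (-(H : ℤ)) H).filter (fun a => a + s ≠ 0),
        (((a + s).natAbs : ℝ) / Nat.totient (a + s).natAbs) ^ k
      ≤ ∑ a ∈ (Icc (-(H : ℤ)) H).filter (fun a => a + s ≠ 0),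
          C1 * ∑ u ∈ (Nat.divisors P).filter (fun u => u ∣ (a + s).natAbs),
            K ^ u.primeFactors.card / (u : ℝ) := by
        refine sum_le_sum fun a ha => ?_
        exact rt_le k 4 H hH _ (hD a ha).1 (hD a ha).2
    _ ≤ ∑ a ∈ Icc (-(H : ℤ)) H,
          C1 * ∑ u ∈ (Nat.divisors P).filter (fun u => u ∣ (a + s).natAbs),
            K ^ u.primeFactors.card / (u : ℝ) := by
        refine sum_le_sum_of_subset_of_nonneg (filter_subset _ _) (fun a _ _ => ?_)
        exact mul_nonneg hC10.le (sum_nonneg fun u _ => by positivity)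
    _ = C1 * ∑ u ∈ Nat.divisors P, (K ^ u.primeFactors.card / (u : ℝ)) *
          (((Icc (-(H : ℤ)) H).filter (fun a => (u : ℤ) ∣ a + s)).card : ℝ) := by
        rw [← mul_sum]
        congr 1
        have e1 : ∀ a : ℤ, ∑ u ∈ (Nat.divisors P).filter (fun u => u ∣ (a + s).natAbs),
            K ^ u.primeFactors.card / (u : ℝ) = ∑ u ∈ Nat.divisors P,
              if u ∣ (a + s).natAbs then K ^ u.primeFactors.card / (u : ℝ) else 0 :=
          fun a => sum_filter _ _
        simp_rw [e1]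
        rw [sum_comm]
        apply sum_congr rfl
        intro u _
        rw [← sum_filter, sum_const, nsmul_eq_mul, mul_comm]
        congr 3
        ext a
        rw [mem_filter, mem_filter, Int.natCast_dvd]
    _ ≤ C1 * ∑ u ∈ Nat.divisors P, (K ^ u.primeFactors.card / (u : ℝ)) *
          (2 * (2 * H + 1) / Nat.totient u) := by
        apply mul_le_mul_of_nonneg_left _ hC10.le
        refine sum_le_sum fun u hu => ?_
        apply mul_le_mul_of_nonneg_left _ (by positivity)
        have hu1 : 1 ≤ u := Nat.pos_of_mem_divisors hu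
        have hu2 : u * u ≤ H := div_small H hH u hu
        have hu3 : u ≤ H := le_trans (Nat.le_mul_self u) hu2
        have hu4 : (0 : ℝ) < u := by exact_mod_cast hu1
        have hu5 : (u : ℝ) ≤ H := by exact_mod_cast hu3
        have hu6 : (0 : ℝ) < Nat.totient u := by exact_mod_cast Nat.totient_pos.mpr hu1
        have hu7 : (Nat.totient u : ℝ) ≤ u := by exact_mod_cast Nat.totient_le u
        calc (((Icc (-(H : ℤ)) H).filter (fun a => (u : ℤ) ∣ a + s)).card : ℝ)
            ≤ (2 * H + 1) / u + 1 := cnt_le H s u hu1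
          _ ≤ 2 * (2 * H + 1) / u := by
              have h1 : 1 ≤ (2 * (H : ℝ) + 1) / u := by
                rw [le_div_iff₀ hu4]
                have : (0 : ℝ) ≤ H := by positivity
                linarith
              have h2 : 2 * (2 * (H : ℝ) + 1) / u = (2 * H + 1) / u + (2 * H + 1) / u := by ring
              linarith
          _ ≤ 2 * (2 * H + 1) / Nat.totient u := by
              apply div_le_div_of_nonneg_left (by positivity) hu6 hu7
    _ = C1 * (2 * (2 * H + 1)) * ∑ u ∈ Nat.divisors P,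
          K ^ u.primeFactors.card / ((u : ℝ) * Nat.totient u) := by
        have e : ∀ u ∈ Nat.divisors P, (K ^ u.primeFactors.card / (u : ℝ)) *
            (2 * (2 * (H : ℝ) + 1) / Nat.totient u) = (2 * (2 * (H : ℝ) + 1)) *
              (K ^ u.primeFactors.card / ((u : ℝ) * Nat.totient u)) := by
          intro u _
          rw [div_mul_div_comm]
          ring
        rw [sum_congr rfl e, ← mul_sum]
        ring
    _ ≤ C1 * (2 * (2 * H + 1)) * Real.exp K :=
        mul_le_mul_of_nonneg_left (sum_pri hK0 _) (by positivity)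
    _ = C1 * (2 * Real.exp K) * (2 * H + 1) := by ring

/-- the product over the small primes -/
theorem small_le : ∃ C : ℝ, 0 < C ∧ ∀ N : ℕ, 3 ≤ N → ∀ D : ℕ,
    ∏ p ∈ D.primeFactors.filter (fun p => p ≤ N), (1 + 1 / ((p : ℝ) - 1)) ≤ C * Real.log N := by
  obtain ⟨C, hC⟩ := Pool.Agent.Erdos456.Mert.mertens_inv
  refine ⟨Real.exp (C + 1), Real.exp_pos _, fun N hN D => ?_⟩
  have hlog : 0 < Real.log N := Real.log_pos (by exact_mod_cast (by omega : 1 < N))
  have hp : ∀ p ∈ D.primeFactors.filter (fun p => p ≤ N), (2 : ℝ) ≤ p := by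
    intro p hp
    exact_mod_cast (Nat.prime_of_mem_primeFactors (mem_filter.mp hp).1).two_le
  calc ∏ p ∈ D.primeFactors.filter (fun p => p ≤ N), (1 + 1 / ((p : ℝ) - 1))
      ≤ ∏ p ∈ D.primeFactors.filter (fun p => p ≤ N), Real.exp (1 / ((p : ℝ) - 1)) := by
        refine prod_le_prod (fun p h => ?_) (fun p h => ?_)
        · have h1 := hp p h
          have h2 : (0 : ℝ) < p - 1 := by linarith
          positivity
        · rw [add_comm]
          exact Real.add_one_le_exp _
    _ = Real.exp (∑ p ∈ D.primeFactors.filter (fun p => p ≤ N), 1 / ((p : ℝ) - 1)) := by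
        rw [Real.exp_sum]
    _ = Real.exp (∑ p ∈ D.primeFactors.filter (fun p => p ≤ N), 1 / (p : ℝ) +
          ∑ p ∈ D.primeFactors.filter (fun p => p ≤ N), 1 / ((p : ℝ) * (p - 1))) := by
        rw [← sum_add_distrib]
        congr 1
        refine sum_congr rfl fun p h => ?_
        have h1 := hp p h
        have h2 : (p : ℝ) - 1 ≠ 0 := by
          intro h3
          linarith
        have h4 : (p : ℝ) ≠ 0 := by linarith
        field_simp
        ring
    _ ≤ Real.exp ((Real.log (Real.log N) + C) + 1) := by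
        apply Real.exp_le_exp.mpr
        apply add_le_add
        · have h1 := (abs_le.mp (hC N hN)).2
          have h2 : ∑ p ∈ D.primeFactors.filter (fun p => p ≤ N), 1 / (p : ℝ) ≤
              ∑ p ∈ (Finset.Icc 1 N).filter Nat.Prime, (1 : ℝ) / p := by
            refine sum_le_sum_of_subset_of_nonneg (fun p hp => ?_) (fun p _ _ => by positivity)
            rw [mem_filter] at hp
            rw [mem_filter, mem_Icc]
            have h3 := Nat.prime_of_mem_primeFactors hp.1
            exact ⟨⟨h3.one_lt.le, hp.2⟩, h3⟩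
          linarith
        · refine le_trans (sum_le_sum_of_subset_of_nonneg (fun p hp => ?_) (fun p hp _ => ?_))
            (tele N)
          · rw [mem_filter] at hp
            rw [mem_Icc]
            exact ⟨(Nat.prime_of_mem_primeFactors hp.1).two_le, hp.2⟩
          · rw [mem_Icc] at hp
            have : (2 : ℝ) ≤ p := by exact_mod_cast hp.1
            have h4 : 0 < (p : ℝ) - 1 := by linarith
            positivity
    _ = Real.exp (C + 1) * Real.log N := by
        rw [add_assoc, Real.exp_add, Real.exp_log hlog, mul_comm]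

/-- `D / φ(D) ≤ C log log X` for `D ≤ X ^ E` -/
theorem rt_loglog (E : ℕ) : ∃ C : ℝ, 0 < C ∧ ∀ X : ℕ, 3 ≤ Real.log X → ∀ D : ℕ, 1 ≤ D → D ≤ X ^ E →
    (D : ℝ) / Nat.totient D ≤ C * Real.log (Real.log X) := by
  obtain ⟨C, hC0, hC⟩ := small_le
  refine ⟨C * Real.exp (32 * E), by positivity, fun X hX D hD hDX => ?_⟩
  have hX2 : 2 ≤ X := by
    by_contra h
    have h1 : (X : ℝ) ≤ 1 := by exact_mod_cast (by omega : X ≤ 1)
    have h2 := Real.log_nonpos (by positivity) h1
    linarith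
  have hnn : ∀ p ∈ D.primeFactors, (1 : ℝ) ≤ 1 + 1 / ((p : ℝ) - 1) := by
    intro p hp
    have h2 : (2 : ℝ) ≤ p := by exact_mod_cast (Nat.prime_of_mem_primeFactors hp).two_le
    have h3 : (0 : ℝ) < p - 1 := by linarith
    have : 0 ≤ 1 / ((p : ℝ) - 1) := by positivity
    linarith
  set z : ℕ := ⌊Real.log X / 8⌋₊ with hz
  set N : ℕ := max 3 z with hN
  have hNl : (N : ℝ) ≤ Real.log X := by
    rw [hN]
    push_cast
    apply max_le hX
    exact (Nat.floor_le (by positivity)).trans (by linarith)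
  have hN3 : 3 ≤ N := le_max_left _ _
  have h1 : (D : ℝ) / Nat.totient D =
      (∏ p ∈ D.primeFactors.filter (fun p => p ≤ z), (1 + 1 / ((p : ℝ) - 1))) *
      ∏ p ∈ D.primeFactors.filter (fun p => ¬ p ≤ z), (1 + 1 / ((p : ℝ) - 1)) := by
    rw [rt_prod hD, prod_filter_mul_prod_filter_not]
  have h2 : ∏ p ∈ D.primeFactors.filter (fun p => p ≤ z), (1 + 1 / ((p : ℝ) - 1)) ≤
      C * Real.log (Real.log X) := by
    calc ∏ p ∈ D.primeFactors.filter (fun p => p ≤ z), (1 + 1 / ((p : ℝ) - 1))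
        ≤ ∏ p ∈ D.primeFactors.filter (fun p => p ≤ N), (1 + 1 / ((p : ℝ) - 1)) := by
          apply prod_le_prod_of_subset_of_one_le
          · intro p hp
            rw [mem_filter] at hp ⊢
            exact ⟨hp.1, hp.2.trans (le_max_right _ _)⟩
          · intro p hp
            exact zero_le_one.trans (hnn p (mem_filter.mp hp).1)
          · intro p hp _
            exact hnn p (mem_filter.mp hp).1
      _ ≤ C * Real.log N := hC N hN3 D
      _ ≤ C * Real.log (Real.log X) := by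
          apply mul_le_mul_of_nonneg_left _ hC0.le
          exact Real.log_le_log (by positivity) hNl
  have h3 := large_le E X hX2 D hD hDX
  rw [← hz] at h3
  have h4 : 0 ≤ ∏ p ∈ D.primeFactors.filter (fun p => ¬ p ≤ z), (1 + 1 / ((p : ℝ) - 1)) :=
    prod_nonneg fun p hp => zero_le_one.trans (hnn p (mem_filter.mp hp).1)
  have h5 : 0 ≤ C * Real.log (Real.log X) :=
    mul_nonneg hC0.le (Real.log_nonneg (by linarith))
  rw [h1]
  calc _ ≤ C * Real.log (Real.log X) * Real.exp (32 * E) := mul_le_mul h2 h3 h4 h5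
    _ = C * Real.exp (32 * E) * Real.log (Real.log X) := by ring

/-- `D / φ(D) ≤ C log log log H` for `D ≤ (log H) ^ B` -/
theorem rtl_le (B : ℕ) : ∃ C : ℝ, 0 < C ∧ ∃ H₀ : ℕ, ∀ H : ℕ, H₀ ≤ H → ∀ D : ℕ, 1 ≤ D →
    (D : ℝ) ≤ Real.log H ^ B →
    (D : ℝ) / Nat.totient D ≤ C * Real.log (Real.log (Real.log H)) := by
  obtain ⟨C, hC0, hC⟩ := rt_loglog B
  refine ⟨C * 2, by positivity, ⌈Real.exp (Real.exp 4)⌉₊, fun H hH D hD hDH => ?_⟩
  have h1 : Real.exp (Real.exp 4) ≤ H := (Nat.le_ceil _).trans (by exact_mod_cast hH)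
  have h2 : Real.exp 4 ≤ Real.log H := by
    rw [Real.le_log_iff_exp_le ((Real.exp_pos _).trans_le h1)]
    exact h1
  have h3 : 4 ≤ Real.log (Real.log H) := by
    rw [Real.le_log_iff_exp_le ((Real.exp_pos _).trans_le h2)]
    exact h2
  have h4 : (5 : ℝ) ≤ Real.exp 4 := by
    have := Real.add_one_le_exp (4 : ℝ)
    linarith
  have h5 : (0 : ℝ) < Real.log H := by linarith
  set X : ℕ := ⌈Real.log H⌉₊ with hX
  have hXl : Real.log H ≤ X := Nat.le_ceil _
  have hXu : (X : ℝ) ≤ Real.log H + 1 := (Nat.ceil_lt_add_one h5.le).le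
  have hX0 : (0 : ℝ) < X := h5.trans_le hXl
  have h6 : 3 ≤ Real.log X := by
    have := Real.log_le_log h5 hXl
    linarith
  have h7 : D ≤ X ^ B := by
    have : (D : ℝ) ≤ (X : ℝ) ^ B := hDH.trans (pow_le_pow_left₀ h5.le hXl B)
    exact_mod_cast this
  have h8 : Real.log (Real.log X) ≤ 2 * Real.log (Real.log (Real.log H)) := by
    have h9 : Real.log X ≤ 2 * Real.log (Real.log H) := by
      have h10 : (X : ℝ) ≤ Real.log H ^ 2 := by nlinarith
      have h11 := Real.log_le_log hX0 h10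
      rwa [Real.log_pow] at h11
    have h12 : 2 * Real.log (Real.log H) ≤ (Real.log (Real.log H)) ^ 2 := by nlinarith
    have h13 := Real.log_le_log (by linarith) (h9.trans h12)
    rwa [Real.log_pow] at h13
  calc (D : ℝ) / Nat.totient D ≤ C * Real.log (Real.log X) := hC X h6 D hD h7
    _ ≤ C * (2 * Real.log (Real.log (Real.log H))) := mul_le_mul_of_nonneg_left h8 hC0.le
    _ = C * 2 * Real.log (Real.log (Real.log H)) := by ring

end Pool.Agent.Helper36K9.QA
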